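import Mathlib

/-!
# The point-half-plane configuration for `MP_1243c9_co`: names of the vertices

All parameters: `M` levels, digit positions `Fin g × Fin g` in lexicographic order, base digits
`0, …, D - 1` (digits live in `ZMod (D + 2)`), tables on `Fin (B + 1) × Fin (B + 1)`.
-/

namespace Pool.Agent.Helper4.UD

/-- digit positions -/
abbrev Key (g : ℕ) := Fin g × Fin g

/-- strict lexicographic order on the digit positions -/
def klt {g : ℕ} (k k' : Key g) : Prop := k.1 < k'.1 ∨ (k.1 = k'.1 ∧ k.2 < k'.2)

instance {g : ℕ} (k k' : Key g) : Decidable (klt k k') := by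
  unfold klt; infer_instance

/-- one coordinate for each (level, row), or for each (level, column) -/
abbrev Bf (M g B : ℕ) := Fin M × Fin g → Fin (B + 1)

/-- the tables: one for each (level, digit position) -/
abbrev Tab (M g B : ℕ) := Fin M × Key g → Fin (B + 1) → Fin (B + 1) → Bool

/-- digit vectors -/
abbrev Xv (g D : ℕ) := Key g → ZMod (D + 2)

/-- names of the points -/
abbrev Pt (M g B D : ℕ) := Xv g D × Bf M g B × Bf M g B

/-- names of the half-planes -/
abbrev Pl (M g B D : ℕ) :=
  (Fin M × Key g) × Bf M g B × Bf M g B × Xv g D × ZMod (D + 2)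

variable {M g B D : ℕ}

/-- the digit vector has all digits below `D` -/
def good (x : Xv g D) : Prop := ∀ k, (x k).val < D

/-- the bit that the table `(i, k)` gives to the point -/
def bit (S : Tab M g B) (b b' : Bf M g B) (i : Fin M) (k : Key g) : Bool :=
  S (i, k) (b (i, k.1)) (b' (i, k.2))

/-- the perturbed digit at level `i` -/
def sd (S : Tab M g B) (x : Xv g D) (b b' : Bf M g B) (i : Fin M) (k : Key g) : ZMod (D + 2) :=
  x k + (if bit S b b' i k = true then 1 else 0)

/-- forget the entries of the levels `≥ i` -/
def trunc (b : Bf M g B) (i : Fin M) : Bf M g B := fun j => if j.1 < i then b j else 0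

/-- the half-plane named after the point `(x, b, b')`, the position `r` and the threshold `θ` -/
def name (S : Tab M g B) (x : Xv g D) (b b' : Bf M g B) (r : Fin M × Key g) (θ : ZMod (D + 2)) :
    Pl M g B D :=
  (r, trunc b r.1, trunc b' r.1, fun k => if klt k r.2 then sd S x b b' r.1 k else 0, θ)

end Pool.Agent.Helper4.UD
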